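import Pool.Agent.Lib.MP_2e4b78_lc.SumTree

/-!
# Closure properties of the class of ideals `NS_T`
-/

open Cardinal Set
open scoped Ordinal

namespace Pool.Agent.Results.MP_2e4b78_lc.Closure

open Pool.Agent.MP2e4b78

universe u

/-- `I = NS_T` for some tree `T` of height `ω₁` -/
def Realised (I : Set (Set W1)) : Prop :=
  ∃ (T : Type u) (_ : PartialOrder T), IsTreeOmega1 T ∧ ∀ X : Set W1, X ∈ I ↔ IsNS (lev T X)

theorem restrict (I : Set (Set W1)) (A : Set W1) (hI : Realised.{u} I) (hA : A ∉ I) :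
    Realised.{u} {X | X ∩ A ∈ I} := by
  obtain ⟨T, _, hT, h⟩ := hI
  obtain ⟨r, hr⟩ := hT.root
  refine ⟨CN T r A, inferInstance, cn_isTree hT hr (fun h2 => hA ((h A).2 h2)), fun X => ?_⟩
  show X ∩ A ∈ I ↔ _
  rw [h]
  exact ⟨isNS_cn_of_isNS hT, isNS_of_isNS_cn hT hr⟩

theorem inter (J : Type u) [Nonempty J] (I : J → Set (Set W1)) (hI : ∀ j, Realised.{u} (I j)) :
    Realised.{u} {X | ∀ j, X ∈ I j} := by
  choose T inst hT h using hI
  refine ⟨ST T, inferInstance, st_isTree hT, fun X => ?_⟩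
  rw [isNS_st_iff hT]
  exact forall_congr' fun j => h j X

theorem ulift_tree {T : Type} [PartialOrder T] (h : IsTreeOmega1 T) :
    IsTreeOmega1 (ULift.{u} T) where
  wellOrdered t := by
    have h1 := h.wellOrdered t.down
    let f : (fun a b : Iio t => a < b) ↪r (fun a b : Iio t.down => a < b) :=
      { toFun := fun x => ⟨x.1.down, x.2⟩
        inj' := fun x y hxy => Subtype.ext (ULift.ext _ _ (congrArg Subtype.val hxy))
        map_rel_iff' := Iff.rfl }
    exact f.isWellOrder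
  root := by
    obtain ⟨r, hr⟩ := h.root
    exact ⟨⟨r⟩, fun t => hr t.down⟩
  exists_ht t := by
    obtain ⟨α, hα⟩ := h.exists_ht t.down
    exact ⟨α, (hasHt_emb (T := T) ULift.down (fun _ _ => Iff.rfl)
      (fun _ x _ => ⟨⟨x⟩, rfl⟩) t α).1 hα⟩
  level_nonempty α := by
    obtain ⟨t, ht⟩ := h.level_nonempty α
    exact ⟨⟨t⟩, (hasHt_emb (T := T) (T' := ULift.{u} T) ULift.down (fun _ _ => Iff.rfl)
      (fun _ x _ => ⟨⟨x⟩, rfl⟩) ⟨t⟩ α).1 ht⟩

theorem nonstationary : Realised.{u} {X | ¬ IsStationary X} := by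
  refine ⟨ULift.{u} W1, inferInstance, ulift_tree W1_isTree, fun X => ?_⟩
  show ¬ IsStationary X ↔ _
  rw [← isNS_W1_iff]
  constructor
  · intro h
    exact h.of_emb (T' := ULift.{u} W1) ULift.down (fun _ _ => Iff.rfl)
      (fun _ x _ => ⟨⟨x⟩, rfl⟩)
  · intro h
    exact h.of_emb (T' := W1) ULift.up (fun _ _ => Iff.rfl)
      (fun _ x _ => ⟨x.down, rfl⟩)

theorem result :
    (∀ (I : Set (Set W1)) (A : Set W1), Realised.{u} I → A ∉ I →
      Realised.{u} {X | X ∩ A ∈ I}) ∧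
    (∀ (J : Type u) [Nonempty J] (I : J → Set (Set W1)), (∀ j, Realised.{u} (I j)) →
      Realised.{u} {X | ∀ j, X ∈ I j}) ∧
    (∀ F : Set (Set W1), F.Nonempty → (∀ A ∈ F, IsStationary A) →
      Realised.{u} {X | ∀ A ∈ F, ¬ IsStationary (X ∩ A)}) := by
  refine ⟨restrict, fun J _ I hI => inter J I hI, fun F hF hs => ?_⟩
  have hne : Nonempty (ULift.{u} F) := by
    obtain ⟨A, hA⟩ := hF
    exact ⟨⟨⟨A, hA⟩⟩⟩
  have h1 := inter (ULift.{u} F) (fun A => {X | ¬ IsStationary (X ∩ A.down.1)}) fun A =>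
    restrict {X | ¬ IsStationary X} A.down.1 nonstationary
      (fun h => h (hs A.down.1 A.down.2))
  have h2 : {X : Set W1 | ∀ A ∈ F, ¬ IsStationary (X ∩ A)} =
      {X | ∀ j : ULift.{u} F, X ∈ {X : Set W1 | ¬ IsStationary (X ∩ j.down.1)}} := by
    ext X
    constructor
    · intro h j
      exact h _ j.down.2
    · intro h A hA
      exact h ⟨⟨A, hA⟩⟩
  rw [h2]
  exact h1

end Pool.Agent.Results.MP_2e4b78_lc.Closure
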