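import Pool.Agent.Lib.MP_2e4b78_lc.Mod.Main

set_option autoImplicit false

/-!
# MP_2e4b78_lc : the positive answer is consistent with ZFC (unconditional)

There is a countable transitive model `N` of `ZFC` in which every normal ideal on `ω₁` is `NS_T`
for some tree `T` of height `ω₁` (all notions in the sense of `N`).
-/

namespace Pool.Agent.Results.MP_2e4b78_lc.ConsistentlyYes

open Pool.Agent.CR (V IsTransModelZFC)
open Pool.Agent.NST

theorem result : ∃ N : Set V, N.Countable ∧ IsTransModelZFC N ∧ Q1 N :=
  t_FI

end Pool.Agent.Results.MP_2e4b78_lc.ConsistentlyYes
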