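import Pool.Agent.Lib.MP_2e4b78_lc.Neg
import Pool.Agent.Lib.MP_2e4b78_lc.Pos

/-!
# Normal ideals on `ω₁` as ideals `NS_T`: the answer is independent
-/

open Cardinal Set
open scoped Ordinal

namespace Pool.Agent.Results.MP_2e4b78_lc.Independence

open Pool.Agent.MP2e4b78

universe u

/-- `I = NS_T` for some tree `T` of height `ω₁` -/
def Realised (I : Set (Set W1)) : Prop :=
  ∃ (T : Type u) (_ : PartialOrder T), IsTreeOmega1 T ∧ ∀ X : Set W1, X ∈ I ↔ IsNS (lev T X)

/-- lifting to another universe -/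
def up (T : Type) [PartialOrder T] : T ≃o ULift.{u} T where
  toFun := ULift.up
  invFun := ULift.down
  left_inv _ := rfl
  right_inv _ := rfl
  map_rel_iff' := Iff.rfl

theorem ulift_tree {T : Type} [PartialOrder T] (h : IsTreeOmega1 T) :
    IsTreeOmega1 (ULift.{u} T) where
  wellOrdered t := by
    have h1 := h.wellOrdered t.down
    let f : (fun a b : Iio t => a < b) ↪r (fun a b : Iio t.down => a < b) :=
      { toFun := fun x => ⟨x.1.down, x.2⟩
        inj' := fun x y hxy => Subtype.ext (ULift.ext _ _ (congrArg Subtype.val hxy))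
        map_rel_iff' := Iff.rfl }
    exact f.isWellOrder
  root := by
    obtain ⟨r, hr⟩ := h.root
    exact ⟨⟨r⟩, fun t => hr t.down⟩
  exists_ht t := by
    obtain ⟨α, hα⟩ := h.exists_ht t.down
    exact ⟨α, hα.map (up T)⟩
  level_nonempty α := by
    obtain ⟨t, ht⟩ := h.level_nonempty α
    exact ⟨⟨t⟩, ht.map (up T)⟩

theorem result :
    ((2 : Cardinal.{0}) ^ ℵ_ 1 = ℵ_ 2 → NonreflectingStationary →
      ∀ I : Set (Set W1), IsNormalIdeal I → Realised.{u} I) ∧
    (RadoConjecture.{u} → Diamond →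
      ∃ I : Set (Set W1), IsNormalIdeal I ∧ ¬ Realised.{u} I) := by
  refine ⟨fun h1 h2 I hI => ?_, fun h1 h2 => ?_⟩
  · obtain ⟨T, _, hT, h⟩ := positive h1 h2 I hI
    refine ⟨ULift.{u} T, inferInstance, ulift_tree hT,
      fun X => (h X).trans ⟨fun hX => ?_, fun hX => ?_⟩⟩
    · exact hX.map (up T)
    · exact hX.map (up T).symm
  · obtain ⟨I, hI, h⟩ := negative h1 h2
    exact ⟨I, hI, fun ⟨T, _, hT, h3⟩ => h T hT h3⟩

end Pool.Agent.Results.MP_2e4b78_lc.Independence
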